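import Pool.Agent.Helper20.KP.StH

/-!
# Project KP, module HEN: holomorphic functions of polynomial growth off a finite set
-/

set_option autoImplicit false

namespace Pool.Agent.Helper9.KP

open Pool.Agent.Helper20.KP Filter Topology Set

/-- an entire function with growth at most `‖t‖ ^ n` is a polynomial of degree at most `n` -/
private theorem hen_entire (n : ℕ) : ∀ g : ℂ → ℂ, Differentiable ℂ g →
    (∃ T B : ℝ, ∀ t, T ≤ ‖t‖ → ‖g t‖ ≤ B * ‖t‖ ^ n) →
    ∃ P : Polynomial ℂ, P.natDegree ≤ n ∧ ∀ t, g t = P.eval t := by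
  induction n with
  | zero =>
    rintro g hg ⟨T, B, h⟩
    refine ⟨Polynomial.C (g 0), by simp, fun t => ?_⟩
    have hb : Bornology.IsBounded (range g) := by
      obtain ⟨C, hC⟩ := (isCompact_closedBall (0 : ℂ) T).exists_bound_of_continuousOn
        hg.continuous.continuousOn
      rw [isBounded_iff_forall_norm_le]
      refine ⟨max B C, ?_⟩
      rintro _ ⟨s, rfl⟩
      rcases le_total T ‖s‖ with h1 | h1
      · have h2 := h s h1
        rw [pow_zero, mul_one] at h2
        exact h2.trans (le_max_left _ _)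
      · exact (hC s (by simpa using h1)).trans (le_max_right _ _)
    rw [Polynomial.eval_C]
    exact hg.apply_eq_apply_of_bounded hb t 0
  | succ n ih =>
    rintro g hg ⟨T, B, h⟩
    have hd : Differentiable ℂ (dslope g 0) := by
      rw [← differentiableOn_univ] at hg ⊢
      exact (Complex.differentiableOn_dslope univ_mem).2 hg
    obtain ⟨P, hP1, hP2⟩ := ih (dslope g 0) hd ⟨max T 1, B + ‖g 0‖, fun t ht => by
      have h1 : 1 ≤ ‖t‖ := (le_max_right _ _).trans ht
      have h0 : t ≠ 0 := by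
        rintro rfl
        rw [norm_zero] at h1
        exact absurd h1 (by norm_num)
      have h2 := h t ((le_max_left _ _).trans ht)
      rw [dslope_of_ne _ h0, slope_def_field, sub_zero, norm_div, div_le_iff₀ (by linarith)]
      have h3 : 1 ≤ ‖t‖ ^ (n + 1) := one_le_pow₀ h1
      calc ‖g t - g 0‖ ≤ ‖g t‖ + ‖g 0‖ := norm_sub_le _ _
        _ ≤ B * ‖t‖ ^ (n + 1) + ‖g 0‖ * ‖t‖ ^ (n + 1) := by
          have h4 : ‖g 0‖ ≤ ‖g 0‖ * ‖t‖ ^ (n + 1) := le_mul_of_one_le_right (norm_nonneg _) h3
          linarith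
        _ = (B + ‖g 0‖) * ‖t‖ ^ n * ‖t‖ := by ring⟩
    refine ⟨Polynomial.C (g 0) + Polynomial.X * P, ?_, fun t => ?_⟩
    · refine (Polynomial.natDegree_add_le _ _).trans (max_le (by simp) ?_)
      refine Polynomial.natDegree_mul_le.trans ?_
      have := Polynomial.natDegree_X_le (R := ℂ)
      omega
    · rw [Polynomial.eval_add, Polynomial.eval_C, Polynomial.eval_mul, Polynomial.eval_X, ← hP2]
      by_cases h0 : t = 0
      · rw [h0, zero_mul, add_zero]
      · rw [dslope_of_ne _ h0, slope_def_field, sub_zero]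
        field_simp
        ring

/-- removable singularities at a finite set -/
private theorem hen_removable (Z : Finset ℂ) : ∀ f : ℂ → ℂ, DifferentiableOn ℂ f (Z : Set ℂ)ᶜ →
    (∀ t ∈ Z, ∃ δ : ℝ, 0 < δ ∧ ∃ B : ℝ, ∀ s, ‖s - t‖ < δ → s ∉ Z → ‖f s‖ ≤ B) →
    ∃ g : ℂ → ℂ, Differentiable ℂ g ∧ ∀ t, t ∉ Z → g t = f t := by
  classical
  induction Z using Finset.induction_on with
  | empty =>
    intro f hf _
    refine ⟨f, ?_, fun t _ => rfl⟩
    rw [← differentiableOn_univ]
    simpa using hf
  | insert c Z hc ih =>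
    intro f hf hb
    obtain ⟨δ, hδ, B, hB⟩ := hb c (Finset.mem_insert_self _ _)
    have hZo : IsOpen ((Z : Set ℂ)ᶜ) := Z.finite_toSet.isClosed.isOpen_compl
    have hZo' : IsOpen (((insert c Z : Finset ℂ) : Set ℂ)ᶜ) :=
      (insert c Z).finite_toSet.isClosed.isOpen_compl
    -- a small ball around `c`
    obtain ⟨ρ, hρ, hρs⟩ := Metric.isOpen_iff.1 (hZo.inter (Metric.isOpen_ball (x := c) (ε := δ)))
      c ⟨by simpa using hc, Metric.mem_ball_self hδ⟩
    have hsub : Metric.ball c ρ \ {c} ⊆ ((insert c Z : Finset ℂ) : Set ℂ)ᶜ := by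
      rintro s ⟨hs1, hs2⟩ hs3
      rcases Finset.mem_insert.1 (Finset.mem_coe.1 hs3) with h | h
      · exact hs2 h
      · exact (hρs hs1).1 (Finset.mem_coe.2 h)
    set a : ℂ := limUnder (𝓝[≠] c) f with ha
    have h1 : DifferentiableOn ℂ (Function.update f c a) (Metric.ball c ρ) := by
      apply Complex.differentiableOn_update_limUnder_of_bddAbove (Metric.ball_mem_nhds c hρ)
        (hf.mono hsub)
      refine ⟨B, ?_⟩
      rintro _ ⟨s, hs, rfl⟩
      refine hB s ?_ (hsub hs)
      have := (hρs hs.1).2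
      rwa [Metric.mem_ball, dist_eq_norm] at this
    have h2 : DifferentiableOn ℂ (Function.update f c a) (Z : Set ℂ)ᶜ := by
      intro x hx
      by_cases hxc : x = c
      · rw [hxc]
        exact (h1.differentiableAt (Metric.ball_mem_nhds c hρ)).differentiableWithinAt
      · have hx2 : x ∈ ((insert c Z : Finset ℂ) : Set ℂ)ᶜ := by
          intro h
          rcases Finset.mem_insert.1 (Finset.mem_coe.1 h) with h | h
          · exact hxc h
          · exact hx (Finset.mem_coe.2 h)
        have h3 := hf.differentiableAt (hZo'.mem_nhds hx2)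
        refine (h3.congr_of_eventuallyEq ?_).differentiableWithinAt
        filter_upwards [isOpen_ne.mem_nhds hxc] with s hs
        exact Function.update_of_ne hs _ _
    obtain ⟨g, hg1, hg2⟩ := ih (Function.update f c a) h2 (fun t ht => by
      obtain ⟨δ', hδ', B', hB'⟩ := hb t (Finset.mem_insert_of_mem ht)
      have htc : t ≠ c := fun h => hc (h ▸ ht)
      refine ⟨min δ' ‖c - t‖, lt_min hδ' (norm_pos_iff.2 (sub_ne_zero.2 htc.symm)), B',
        fun s hs1 hs2 => ?_⟩
      have hsc : s ≠ c := by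
        rintro rfl
        exact absurd hs1 (not_lt.2 (min_le_right _ _))
      rw [Function.update_of_ne hsc]
      refine hB' s (hs1.trans_le (min_le_left _ _)) ?_
      intro h
      rcases Finset.mem_insert.1 h with h | h
      · exact hsc h
      · exact hs2 h)
    refine ⟨g, hg1, fun t ht => ?_⟩
    rw [Finset.mem_insert, not_or] at ht
    rw [hg2 t ht.2, Function.update_of_ne ht.1]

theorem hHEN : StHEN := by
  intro Z f n hZ hf hb hgr
  obtain ⟨T, B, hTB⟩ := hgr
  obtain ⟨Z, rfl⟩ := hZ.exists_finset_coe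
  obtain ⟨g, hg1, hg2⟩ := hen_removable Z f hf (fun t ht => by
    obtain ⟨δ, hδ, B, h⟩ := hb t (Finset.mem_coe.2 ht)
    exact ⟨δ, hδ, B, fun s h1 h2 => h s h1 (fun h3 => h2 (Finset.mem_coe.1 h3))⟩)
  obtain ⟨M, hM⟩ := Z.finite_toSet.isBounded.exists_norm_le
  obtain ⟨P, hP1, hP2⟩ := hen_entire n g hg1 ⟨max T (M + 1), B, fun t ht => by
    have h1 : t ∉ (Z : Set ℂ) := by
      intro h
      have h2 := hM t h
      have h3 := (le_max_right _ _).trans ht
      linarith
    rw [hg2 t (fun h => h1 (Finset.mem_coe.2 h))]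
    exact hTB t ((le_max_left _ _).trans ht) h1⟩
  exact ⟨P, hP1, fun t ht => by rw [← hg2 t (fun h => ht (Finset.mem_coe.2 h)), hP2]⟩

end Pool.Agent.Helper9.KP
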