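import Pool.Agent.Helper52.KP.StL

/-!
# Project KP, module MEX: existence of torus-invariant mollifiers
-/

set_option autoImplicit false

namespace Pool.Agent.Helper9.KP

open MeasureTheory Filter
open scoped ContDiff ComplexOrder Topology
open Pool.Agent.Helper52.KP

/-- smooth cut-off on the line: `1` on `(-∞, 1/4]` and `0` on `[1, ∞)` -/
noncomputable def th (t : ℝ) : ℝ := Real.smoothTransition ((1 - t) * (4 / 3))

theorem th_smooth : ContDiff ℝ ∞ th := by
  unfold th
  exact Real.smoothTransition.contDiff.comp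
    ((contDiff_const.sub contDiff_id).mul contDiff_const)

theorem th_nonneg (t : ℝ) : 0 ≤ th t := Real.smoothTransition.nonneg _

theorem th_one {t : ℝ} (h : t ≤ 1 / 4) : th t = 1 := by
  unfold th
  apply Real.smoothTransition.one_of_one_le
  linarith

theorem th_zero {t : ℝ} (h : 1 ≤ t) : th t = 0 := by
  unfold th
  apply Real.smoothTransition.zero_of_nonpos
  nlinarith

/-- radial bump in one variable -/
noncomputable def bu (i : ℕ) (w : ℂ) : ℝ := th (‖w‖ ^ 2 * ((i : ℝ) + 1) ^ 2)

theorem bu_smooth (i : ℕ) : ContDiff ℝ ∞ (bu i) := by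
  unfold bu
  exact th_smooth.comp ((contDiff_norm_sq ℝ).mul contDiff_const)

theorem bu_nonneg (i : ℕ) (w : ℂ) : 0 ≤ bu i w := th_nonneg _

theorem bu_zero (i : ℕ) (w : ℂ) (h : 1 / ((i : ℝ) + 1) ≤ ‖w‖) : bu i w = 0 := by
  unfold bu
  apply th_zero
  have hi : (0 : ℝ) < (i : ℝ) + 1 := by positivity
  have h1 : 1 ≤ ‖w‖ * ((i : ℝ) + 1) := by
    rw [div_le_iff₀ hi] at h
    exact h
  calc (1 : ℝ) = 1 * 1 := by ring
    _ ≤ (‖w‖ * ((i : ℝ) + 1)) * (‖w‖ * ((i : ℝ) + 1)) :=
        mul_le_mul h1 h1 zero_le_one (le_trans zero_le_one h1)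
    _ = ‖w‖ ^ 2 * ((i : ℝ) + 1) ^ 2 := by ring

theorem bu_compact (i : ℕ) : HasCompactSupport (bu i) := by
  apply HasCompactSupport.intro (isCompact_closedBall (0 : ℂ) (1 / ((i : ℝ) + 1)))
  intro w hw
  apply bu_zero
  have : ¬ dist w 0 ≤ 1 / ((i : ℝ) + 1) := fun h => hw (Metric.mem_closedBall.2 h)
  rw [dist_zero_right] at this
  exact le_of_lt (not_le.1 this)

theorem bu_integrable (i : ℕ) : Integrable (bu i) :=
  (bu_smooth i).continuous.integrable_of_hasCompactSupport (bu_compact i)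

theorem bu_pos (i : ℕ) : 0 < ∫ w, bu i w := by
  apply (bu_smooth i).continuous.integral_pos_of_hasCompactSupport_nonneg_nonzero (bu_compact i)
    (bu_nonneg i) (x := 0)
  have : bu i 0 = 1 := by
    unfold bu
    apply th_one
    norm_num
  rw [this]
  norm_num

theorem hMEX : StMEX := by
  intro m
  refine ⟨fun i z => ∏ j, (∫ w, bu i w)⁻¹ * bu i (z j), ?_⟩
  refine ⟨?_, ?_, ?_, ?_, ?_⟩
  · intro i
    apply contDiff_prod
    intro j _
    exact contDiff_const.mul ((bu_smooth i).comp (contDiff_apply ℝ ℂ j))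
  · intro i z
    apply Finset.prod_nonneg
    intro j _
    exact mul_nonneg (inv_nonneg.2 (bu_pos i).le) (bu_nonneg i _)
  · intro i z h
    have hi : (0 : ℝ) < (i : ℝ) + 1 := by positivity
    have : ∃ j, 1 / ((i : ℝ) + 1) < ‖z j‖ := by
      by_contra hc
      push Not at hc
      have := (pi_norm_le_iff_of_nonneg (by positivity : (0 : ℝ) ≤ 1 / ((i : ℝ) + 1))).2 hc
      exact absurd h (not_lt.2 this)
    obtain ⟨j, hj⟩ := this
    apply Finset.prod_eq_zero (Finset.mem_univ j)
    rw [bu_zero i _ hj.le, mul_zero]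
  · intro i
    have h := integral_fintype_prod_volume_eq_prod (𝕜 := ℝ) (ι := Fin m) (E := fun _ => ℂ)
      (fun _ w => (∫ w, bu i w)⁻¹ * bu i w)
    rw [h]
    apply Finset.prod_eq_one
    intro j _
    rw [integral_const_mul]
    exact inv_mul_cancel₀ (bu_pos i).ne'
  · intro i z c hc
    apply Finset.prod_congr rfl
    intro j _
    have : bu i (c j * z j) = bu i (z j) := by
      unfold bu
      rw [norm_mul, hc j, one_mul]
    rw [this]

end Pool.Agent.Helper9.KP
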