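import Pool.Agent.Helper52.KP.StW

/-!
# Project KP, module TMV: convolution of a smooth plurisubharmonic function increases it
-/

set_option autoImplicit false

namespace Pool.Agent.Helper9.KP

open MeasureTheory Filter
open scoped ContDiff ComplexOrder Topology
open Pool.Agent.Helper52.KP

variable {m : ℕ}

theorem cf_contDiff {v : (Fin m → ℂ) → ℝ} (hv : ContDiff ℝ ∞ v) : ContDiff ℝ ∞ (cf v) :=
  Complex.ofRealCLM.contDiff.comp hv

theorem fderiv_cf {v : (Fin m → ℂ) → ℝ} {x : Fin m → ℂ} (hv : DifferentiableAt ℝ v x)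
    (ξ : Fin m → ℂ) : fderiv ℝ (cf v) x ξ = ((fderiv ℝ v x ξ : ℝ) : ℂ) := by
  have h := (Complex.ofRealCLM.hasFDerivAt (x := v x)).comp x hv.hasFDerivAt
  have h2 : HasFDerivAt (cf v) (Complex.ofRealCLM.comp (fderiv ℝ v x)) x := h
  rw [h2.fderiv]
  rfl

/-- second derivative of a real function, as a complex number -/
theorem fderiv2 (hcal : StCAL) {v : (Fin m → ℂ) → ℝ} (hv : ContDiff ℝ ∞ v)
    (x ξ η : Fin m → ℂ) :
    ((fderiv ℝ (fun x => fderiv ℝ v x ξ) x η : ℝ) : ℂ) =
      ∑ k, ((∑ j, (dz j (dz k (cf v)) x * η j + db j (dz k (cf v)) x * star (η j))) * ξ k +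
        (∑ j, (dz j (db k (cf v)) x * η j + db j (db k (cf v)) x * star (η j))) *
          star (ξ k)) := by
  have hV := cf_contDiff hv
  have hVd : Differentiable ℝ (cf v) := hV.differentiable (by simp)
  have hvd : Differentiable ℝ v := hv.differentiable (by simp)
  have hdz : ∀ k, ContDiff ℝ ∞ (dz k (cf v)) := fun k => by
    have := ((hcal m k k (cf v) (cf v) x).2.2.2.2 Set.univ isOpen_univ hV.contDiffOn).1
    rwa [contDiffOn_univ] at this
  have hdb : ∀ k, ContDiff ℝ ∞ (db k (cf v)) := fun k => by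
    have := ((hcal m k k (cf v) (cf v) x).2.2.2.2 Set.univ isOpen_univ hV.contDiffOn).2
    rwa [contDiffOn_univ] at this
  have exp1 : ∀ (f : (Fin m → ℂ) → ℂ) (_ : Differentiable ℝ f) (y w : Fin m → ℂ),
      fderiv ℝ f y w = ∑ i, (dz i f y * w i + db i f y * star (w i)) := by
    intro f hf y w
    rcases m with _ | m
    · simp only [Finset.univ_eq_empty, Finset.sum_empty]
      have : w = 0 := Subsingleton.elim _ _
      rw [this, map_zero]
    · exact ((hcal (m + 1) 0 0 f f y).2.1 (hf y)).1 w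
  have e1 : (fun x => ((fderiv ℝ v x ξ : ℝ) : ℂ)) =
      fun x => ∑ k, (dz k (cf v) x * ξ k + db k (cf v) x * star (ξ k)) := by
    funext y
    rw [← fderiv_cf (hvd y), exp1 _ hVd]
  have hG : Differentiable ℝ (fun x => fderiv ℝ v x ξ) := by
    have : ContDiff ℝ ∞ (fun x => fderiv ℝ v x ξ) :=
      (hv.fderiv_right (m := ∞) (by simp)).clm_apply contDiff_const
    exact this.differentiable (by simp)
  have e2 : ((fderiv ℝ (fun x => fderiv ℝ v x ξ) x η : ℝ) : ℂ) =
      fderiv ℝ (fun x => ((fderiv ℝ v x ξ : ℝ) : ℂ)) x η :=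
    (fderiv_cf (v := fun x => fderiv ℝ v x ξ) (hG x) η).symm
  rw [e2, e1]
  have h3 : HasFDerivAt (fun x => ∑ k, (dz k (cf v) x * ξ k + db k (cf v) x * star (ξ k)))
      (∑ k, (ξ k • fderiv ℝ (dz k (cf v)) x + star (ξ k) • fderiv ℝ (db k (cf v)) x)) x := by
    apply HasFDerivAt.fun_sum
    intro k _
    apply HasFDerivAt.add
    · exact (((hdz k).differentiable (by simp)) x).hasFDerivAt.mul_const (ξ k)
    · exact (((hdb k).differentiable (by simp)) x).hasFDerivAt.mul_const (star (ξ k))
  rw [h3.fderiv]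
  simp only [_root_.sum_apply, _root_.add_apply,
    _root_.smul_apply, smul_eq_mul]
  apply Finset.sum_congr rfl
  intro k _
  rw [exp1 _ ((hdz k).differentiable (by simp)), exp1 _ ((hdb k).differentiable (by simp))]
  ring

/-- the Laplacian in a complex direction -/
theorem lap (hcal : StCAL) {v : (Fin m → ℂ) → ℝ} (hv : ContDiff ℝ ∞ v) (x ξ : Fin m → ℂ) :
    fderiv ℝ (fun x => fderiv ℝ v x ξ) x ξ +
      fderiv ℝ (fun x => fderiv ℝ v x (Complex.I • ξ)) x (Complex.I • ξ) =
      4 * hf (hes v x) ξ := by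
  have hV := cf_contDiff hv
  have hsymm : ∀ j k, db j (dz k (cf v)) x = dz k (db j (cf v)) x := fun j k =>
    ((hcal m k j (cf v) (cf v) x).2.2.2.1 ((hV.contDiffAt).of_le (by norm_cast))).1
  have key : (((fderiv ℝ (fun x => fderiv ℝ v x ξ) x ξ +
      fderiv ℝ (fun x => fderiv ℝ v x (Complex.I • ξ)) x (Complex.I • ξ) : ℝ)) : ℂ) =
      4 * ∑ j, ∑ k, hes v x j k * ξ j * star (ξ k) := by
    rw [Complex.ofReal_add, fderiv2 hcal hv, fderiv2 hcal hv, ← Finset.sum_add_distrib]
    have e1 : ∀ k, (((∑ j, (dz j (dz k (cf v)) x * ξ j + db j (dz k (cf v)) x * star (ξ j))) * ξ k +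
        (∑ j, (dz j (db k (cf v)) x * ξ j + db j (db k (cf v)) x * star (ξ j))) * star (ξ k)) +
        ((∑ j, (dz j (dz k (cf v)) x * (Complex.I • ξ) j +
          db j (dz k (cf v)) x * star ((Complex.I • ξ) j))) * (Complex.I • ξ) k +
        (∑ j, (dz j (db k (cf v)) x * (Complex.I • ξ) j +
          db j (db k (cf v)) x * star ((Complex.I • ξ) j))) * star ((Complex.I • ξ) k))) =
        ∑ j, (2 * (hes v x k j * ξ k * star (ξ j)) + 2 * (hes v x j k * ξ j * star (ξ k))) := by
      intro k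
      rw [Finset.sum_mul, Finset.sum_mul, Finset.sum_mul, Finset.sum_mul,
        ← Finset.sum_add_distrib, ← Finset.sum_add_distrib, ← Finset.sum_add_distrib]
      apply Finset.sum_congr rfl
      intro j _
      rw [hsymm j k]
      simp only [hes, Matrix.of_apply, Pi.smul_apply, smul_eq_mul, star_mul',
        Complex.star_def, Complex.conj_I]
      linear_combination (dz j (dz k (cf v)) x * ξ j * ξ k -
        dz k (db j (cf v)) x * (starRingEnd ℂ) (ξ j) * ξ k -
        dz j (db k (cf v)) x * ξ j * (starRingEnd ℂ) (ξ k) +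
        db j (db k (cf v)) x * (starRingEnd ℂ) (ξ j) * (starRingEnd ℂ) (ξ k)) * Complex.I_mul_I
    rw [Finset.sum_congr rfl (fun k _ => e1 k)]
    have e2 : ∑ k, ∑ j, (2 * (hes v x k j * ξ k * star (ξ j)) +
        2 * (hes v x j k * ξ j * star (ξ k))) =
        ∑ k, ∑ j, 2 * (hes v x k j * ξ k * star (ξ j)) +
        ∑ k, ∑ j, 2 * (hes v x j k * ξ j * star (ξ k)) := by
      rw [← Finset.sum_add_distrib]
      apply Finset.sum_congr rfl
      intro k _
      rw [← Finset.sum_add_distrib]
    rw [e2, Finset.sum_comm (f := fun k j => 2 * (hes v x j k * ξ j * star (ξ k))), ← two_mul]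
    rw [Finset.mul_sum, Finset.mul_sum]
    apply Finset.sum_congr rfl
    intro k _
    rw [Finset.mul_sum, Finset.mul_sum]
    apply Finset.sum_congr rfl
    intro j _
    ring
  have := congrArg Complex.re key
  rw [Complex.ofReal_re] at this
  rw [this]
  unfold hf
  simp

theorem circle_mean (hsmv : StSMV) (hcal : StCAL) {v : (Fin m → ℂ) → ℝ} (hv : ContDiff ℝ ∞ v)
    (hp : ∀ z, Psd (hes v z)) (z y : Fin m → ℂ) :
    v z ≤ (2 * Real.pi)⁻¹ * ∫ θ in (0 : ℝ)..2 * Real.pi,
      v (z - Complex.exp (θ * Complex.I) • y) := by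
  have hvd : Differentiable ℝ v := hv.differentiable (by simp)
  have hw : ContDiff ℝ ∞ (fun ζ : ℂ => v (z - ζ • y)) := by
    apply hv.comp
    apply contDiff_const.sub
    exact contDiff_id.smul contDiff_const
  have hL : ∀ ζ : ℂ, HasFDerivAt (fun ζ : ℂ => z - ζ • y)
      (-((ContinuousLinearMap.id ℝ ℂ).smulRight y)) ζ := by
    intro ζ
    have h1 : HasFDerivAt (fun ζ : ℂ => ζ • y) ((ContinuousLinearMap.id ℝ ℂ).smulRight y) ζ :=
      (hasFDerivAt_id ζ).smul_const y
    exact h1.const_sub z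
  have h1 : ∀ (ζ d : ℂ), fderiv ℝ (fun ζ : ℂ => v (z - ζ • y)) ζ d =
      fderiv ℝ v (z - ζ • y) (d • (-y)) := by
    intro ζ d
    have h2 := (hvd (z - ζ • y)).hasFDerivAt.comp ζ (hL ζ)
    have h3 : HasFDerivAt (fun ζ : ℂ => v (z - ζ • y)) _ ζ := h2
    rw [h3.fderiv]
    simp
  have h2 : ∀ (ζ d : ℂ), fderiv ℝ (fun w => fderiv ℝ (fun ζ : ℂ => v (z - ζ • y)) w d) ζ d =
      fderiv ℝ (fun x => fderiv ℝ v x (d • (-y))) (z - ζ • y) (d • (-y)) := by
    intro ζ d
    have e1 : (fun w => fderiv ℝ (fun ζ : ℂ => v (z - ζ • y)) w d) =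
        fun w => (fun x => fderiv ℝ v x (d • (-y))) (z - w • y) := by
      funext w
      exact h1 w d
    rw [e1]
    have hG : Differentiable ℝ (fun x => fderiv ℝ v x (d • (-y))) := by
      have : ContDiff ℝ ∞ (fun x => fderiv ℝ v x (d • (-y))) :=
        (hv.fderiv_right (m := ∞) (by simp)).clm_apply contDiff_const
      exact this.differentiable (by simp)
    have h4 := (hG (z - ζ • y)).hasFDerivAt.comp ζ (hL ζ)
    have h5 : HasFDerivAt (fun w => (fun x => fderiv ℝ v x (d • (-y))) (z - w • y)) _ ζ := h4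
    rw [h5.fderiv]
    simp
  have key := hsmv (fun ζ : ℂ => v (z - ζ • y)) hw (by
    intro ζ
    rw [h2, h2, one_smul, lap hcal hv]
    have := (hp (z - ζ • y)).2 (-y)
    linarith)
  simpa using key

theorem integral_rot (c : ℂ) (hc : ‖c‖ = 1) (f : (Fin m → ℂ) → ℝ) :
    ∫ y, f (c • y) = ∫ y, f y := by
  have hc0 : c ≠ 0 := by
    intro h
    rw [h, norm_zero] at hc
    exact zero_ne_one hc
  have h1 : MeasurePreserving (fun w : ℂ => c * w) := by
    have := (rotation ⟨c, by simpa [Submonoid.unitSphere] using hc⟩).measurePreserving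
    exact this
  have h2 : MeasurePreserving (fun (y : Fin m → ℂ) => c • y) :=
    volume_preserving_pi (fun _ => h1)
  exact h2.integral_comp (Homeomorph.smulOfNeZero c hc0).measurableEmbedding f

theorem hTMV (hsmv : StSMV) (hcal : StCAL) : StTMV := by
  intro m v hv hp φ hφ hsupp hnn hone hinv z
  have hvc : Continuous v := hv.continuous
  have hI0 : ∫ x, φ (z - x) * v x = ∫ y, φ y * v (z - y) := by
    rw [← integral_sub_left_eq_self (fun y => φ y * v (z - y)) volume z]
    apply integral_congr_ae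
    filter_upwards with x
    rw [sub_sub_cancel]
  have hθ : ∀ θ : ℝ, ∫ x, φ (z - x) * v x =
      ∫ y, φ y * v (z - Complex.exp (θ * Complex.I) • y) := by
    intro θ
    have hc : ‖Complex.exp (θ * Complex.I)‖ = 1 := Complex.norm_exp_ofReal_mul_I θ
    rw [hI0, ← integral_rot _ hc (fun y => φ y * v (z - y))]
    apply integral_congr_ae
    filter_upwards with y
    rw [hinv _ _ hc]
  have hFc : Continuous (Function.uncurry fun (θ : ℝ) (y : Fin m → ℂ) =>
      φ y * v (z - Complex.exp (θ * Complex.I) • y)) := by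
    unfold Function.uncurry
    fun_prop
  have hint : Integrable (Function.uncurry fun (θ : ℝ) (y : Fin m → ℂ) =>
      φ y * v (z - Complex.exp (θ * Complex.I) • y))
      ((volume.restrict (Set.uIoc 0 (2 * Real.pi))).prod volume) := by
    have h1 : IntegrableOn (Function.uncurry fun (θ : ℝ) (y : Fin m → ℂ) =>
        φ y * v (z - Complex.exp (θ * Complex.I) • y))
        (Set.Icc 0 (2 * Real.pi) ×ˢ tsupport φ) (volume.prod volume) :=
      hFc.continuousOn.integrableOn_compact (isCompact_Icc.prod hsupp)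
    have h2 : IntegrableOn (Function.uncurry fun (θ : ℝ) (y : Fin m → ℂ) =>
        φ y * v (z - Complex.exp (θ * Complex.I) • y))
        (Set.uIoc 0 (2 * Real.pi) ×ˢ Set.univ) (volume.prod volume) := by
      apply h1.of_forall_sdiff_eq_zero (measurableSet_uIoc.prod MeasurableSet.univ)
      rintro ⟨θ, y⟩ ⟨h3, h4⟩
      have h5 : y ∉ tsupport φ := by
        intro h6
        apply h4
        refine ⟨?_, h6⟩
        have := h3.1
        rw [Set.uIoc_of_le (by positivity)] at this
        exact ⟨this.1.le, this.2⟩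
      show φ y * _ = 0
      rw [image_eq_zero_of_notMem_tsupport h5, zero_mul]
    rw [IntegrableOn, ← Measure.prod_restrict, Measure.restrict_univ] at h2
    exact h2
  have hpi : (0 : ℝ) < 2 * Real.pi := by positivity
  have hav : ∫ x, φ (z - x) * v x = (2 * Real.pi)⁻¹ * ∫ θ in (0 : ℝ)..2 * Real.pi,
      ∫ y, φ y * v (z - Complex.exp (θ * Complex.I) • y) := by
    have : ∫ θ in (0 : ℝ)..2 * Real.pi, (∫ y, φ y * v (z - Complex.exp (θ * Complex.I) • y)) =
        ∫ θ in (0 : ℝ)..2 * Real.pi, (∫ x, φ (z - x) * v x) := by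
      apply intervalIntegral.integral_congr
      intro θ _
      exact (hθ θ).symm
    rw [this, intervalIntegral.integral_const, smul_eq_mul, sub_zero, ← mul_assoc,
      inv_mul_cancel₀ hpi.ne', one_mul]
  rw [hav, intervalIntegral_integral_swap hint, ← integral_const_mul]
  have hone' : v z = ∫ y, φ y * v z := by
    rw [integral_mul_const, hone, one_mul]
  rw [hone']
  have hcont : Continuous fun y : Fin m → ℂ => ∫ θ in (0 : ℝ)..2 * Real.pi,
      v (z - Complex.exp (θ * Complex.I) • y) := by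
    apply intervalIntegral.continuous_parametric_intervalIntegral_of_continuous'
    unfold Function.uncurry
    fun_prop
  have e1 : ∀ y, (2 * Real.pi)⁻¹ * ∫ θ in (0 : ℝ)..2 * Real.pi,
      φ y * v (z - Complex.exp (θ * Complex.I) • y) =
      φ y * ((2 * Real.pi)⁻¹ * ∫ θ in (0 : ℝ)..2 * Real.pi,
        v (z - Complex.exp (θ * Complex.I) • y)) := by
    intro y
    rw [intervalIntegral.integral_const_mul]
    ring
  apply integral_mono
  · exact (hφ.mul continuous_const).integrable_of_hasCompactSupport hsupp.mul_right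
  · simp_rw [e1]
    exact (hφ.mul (continuous_const.mul hcont)).integrable_of_hasCompactSupport hsupp.mul_right
  · intro y
    simp only [e1]
    exact mul_le_mul_of_nonneg_left (circle_mean hsmv hcal hv hp z y) (hnn y)

end Pool.Agent.Helper9.KP
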