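import Pool.Agent.Helper68.KP.StS

/-!
# Project KP, module EXF: the exponential of a self-adjoint derivation
-/

set_option autoImplicit false

namespace Pool.Agent.Helper9.KP

open Pool.Agent.Helper52.KP Pool.Agent.Helper68.KP Filter Topology Matrix

/-- the matrix exponential on eigenvectors -/
private theorem exf_exp_mulVec {N : ℕ} (B : Matrix (Fin N) (Fin N) ℂ) (v : Fin N → ℂ) (a : ℂ)
    (h : B *ᵥ v = a • v) : NormedSpace.exp B *ᵥ v = Complex.exp a • v := by
  have hpow : ∀ n : ℕ, B ^ n *ᵥ v = a ^ n • v := by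
    intro n
    induction n with
    | zero => simp
    | succ n ih =>
      rw [pow_succ, ← Matrix.mulVec_mulVec, h, Matrix.mulVec_smul, ih, smul_smul, pow_succ,
        mul_comm]
  let _ : NormedRing (Matrix (Fin N) (Fin N) ℂ) := Matrix.linftyOpNormedRing
  let _ : NormedAlgebra ℂ (Matrix (Fin N) (Fin N) ℂ) := Matrix.linftyOpNormedAlgebra
  have h1 : HasSum (fun n : ℕ => ((n.factorial : ℂ)⁻¹) • B ^ n) (NormedSpace.exp B) :=
    NormedSpace.exp_series_hasSum_exp' (𝕂 := ℂ) B
  have h2 : HasSum (fun n : ℕ => (((n.factorial : ℂ)⁻¹) • B ^ n) *ᵥ v)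
      (NormedSpace.exp B *ᵥ v) := by
    let T : Matrix (Fin N) (Fin N) ℂ →+ (Fin N → ℂ) :=
      { toFun := fun M => M *ᵥ v
        map_zero' := Matrix.zero_mulVec v
        map_add' := fun A B => Matrix.add_mulVec A B v }
    have hT : Continuous T := Continuous.matrix_mulVec continuous_id continuous_const
    exact h1.map T hT
  have h3 : HasSum (fun n : ℕ => ((n.factorial : ℂ)⁻¹) • a ^ n) (NormedSpace.exp a) :=
    NormedSpace.exp_series_hasSum_exp' (𝕂 := ℂ) a
  have h4 := h3.smul_const v
  rw [← Complex.exp_eq_exp_ℂ] at h4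
  have h5 : (fun n : ℕ => (((n.factorial : ℂ)⁻¹) • B ^ n) *ᵥ v) =
      fun n : ℕ => (((n.factorial : ℂ)⁻¹) • a ^ n) • v := by
    funext n
    rw [Matrix.smul_mulVec, hpow, smul_smul, smul_eq_mul]
  rw [h5] at h2
  exact h2.unique h4

theorem hEXF (_hONB : StONB) (hEIG : StEIG) : StEXF := by
  intro A _ _ E ip M hE hip W hW hsa
  have heig := fun k => hEIG A E ip k (hE.fd k) hip W hsa
  choose e w hon hWe hli hsp _ using heig
  let b : ∀ k, Module.Basis (Fin (Module.finrank ℂ (E k))) ℂ (E k) :=
    fun k => Module.Basis.mk (hli k) (hsp k).ge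
  have hb : ∀ k j, b k j = e k j := fun k j => by simp [b]
  -- the operators
  let σ : ∀ k, E k →ₗ[ℂ] E k := fun k =>
    (b k).constr ℂ fun j => Complex.exp (w k j) • e k j
  have hσe : ∀ k j, σ k (e k j) = Complex.exp (w k j) • e k j := by
    intro k j
    rw [← hb k j]
    simp only [σ]
    rw [Module.Basis.constr_basis, hb]
  -- eigenvectors
  have hσ : ∀ k (x : E k) (a : ℂ), W k x = a • x → σ k x = Complex.exp a • x := by
    intro k x a hx
    have hx1 : x = ∑ j, (b k).repr x j • e k j := by
      conv_lhs => rw [← (b k).sum_repr x]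
      exact Finset.sum_congr rfl fun j _ => by rw [hb]
    have h1 : ∑ j, ((b k).repr x j * ((w k j : ℂ) - a)) • e k j = 0 := by
      have h2 : W k x = ∑ j, ((b k).repr x j * (w k j : ℂ)) • e k j := by
        conv_lhs => rw [hx1]
        rw [map_sum]
        refine Finset.sum_congr rfl fun j _ => ?_
        rw [map_smul, hWe, smul_smul]
      have h3 : a • x = ∑ j, ((b k).repr x j * a) • e k j := by
        conv_lhs => rw [hx1]
        rw [Finset.smul_sum]
        refine Finset.sum_congr rfl fun j _ => ?_
        rw [smul_smul, mul_comm]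
      rw [h2, h3] at hx
      rw [← sub_eq_zero.2 hx, ← Finset.sum_sub_distrib]
      refine Finset.sum_congr rfl fun j _ => ?_
      rw [mul_sub]
      apply Subtype.ext
      simp only [Submodule.coe_smul, Submodule.coe_sub]
      exact sub_smul ((b k).repr x j * (w k j : ℂ)) ((b k).repr x j * a) ((e k j : E k) : A)
    have h2 : ∀ j, (b k).repr x j * ((w k j : ℂ) - a) = 0 :=
      fun j => (Fintype.linearIndependent_iff.1 (hli k)) _ h1 j
    conv_lhs => rw [hx1]
    conv_rhs => rw [hx1]
    rw [map_sum, Finset.smul_sum]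
    refine Finset.sum_congr rfl fun j _ => ?_
    rw [map_smul, hσe, smul_smul, smul_smul]
    rcases mul_eq_zero.1 (h2 j) with h | h
    · rw [h]
      simp
    · rw [sub_eq_zero.1 h, mul_comm]
  have hbW : ∀ k j, W k (b k j) = (w k j : ℂ) • b k j := fun k j => by rw [hb, hWe]
  refine ⟨σ, ⟨?_, ?_⟩, ?_, ?_⟩
  · intro k
    have hfd := hE.fd k
    have hinj : Function.Injective (σ k) := by
      rw [← LinearMap.ker_eq_bot, LinearMap.ker_eq_bot']
      intro x hx
      have hx1 : x = ∑ j, (b k).repr x j • e k j := by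
        conv_lhs => rw [← (b k).sum_repr x]
        exact Finset.sum_congr rfl fun j _ => by rw [hb]
      have h1 : ∑ j, ((b k).repr x j * Complex.exp (w k j)) • e k j = 0 := by
        rw [← hx]
        conv_rhs => rw [hx1]
        rw [map_sum]
        refine Finset.sum_congr rfl fun j _ => ?_
        rw [map_smul, hσe, smul_smul]
      have h2 : ∀ j, (b k).repr x j * Complex.exp (w k j) = 0 :=
        fun j => (Fintype.linearIndependent_iff.1 (hli k)) _ h1 j
      rw [hx1]
      refine Finset.sum_eq_zero fun j _ => ?_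
      rcases mul_eq_zero.1 (h2 j) with h | h
      · rw [h, zero_smul]
      · exact absurd h (Complex.exp_ne_zero _)
    exact ⟨hinj, LinearMap.injective_iff_surjective.1 hinj⟩
  · intro k k' f f' g hg
    -- the product as a bilinear map
    let mu : E k →ₗ[ℂ] E k' →ₗ[ℂ] E (k + k') :=
      LinearMap.mk₂ ℂ (fun x y => ⟨(x : A) * y, hE.mul k k' _ _ x.2 y.2⟩)
        (fun x x' y => Subtype.ext (by simp [add_mul]))
        (fun c x y => Subtype.ext (by simp))
        (fun x y y' => Subtype.ext (by simp [mul_add]))
        (fun c x y => Subtype.ext (by simp))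
    have hmu : ∀ x y, (mu x y : A) = x * y := fun x y => rfl
    have key : mu.compr₂ (σ (k + k')) = (mu.compl₁₂ (σ k) (σ k')) := by
      apply LinearMap.ext_basis (b k) (b k')
      intro i j
      show σ (k + k') (mu (b k i) (b k' j)) = mu (σ k (b k i)) (σ k' (b k' j))
      have h1 : W (k + k') (mu (b k i) (b k' j)) =
          ((w k i : ℂ) + w k' j) • mu (b k i) (b k' j) := by
        apply Subtype.ext
        rw [hW k k' (b k i) (b k' j) _ rfl, hbW, hbW]
        simp only [Submodule.coe_smul, hmu]
        rw [smul_mul_assoc, mul_smul_comm, add_smul]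
      rw [hσ _ _ _ h1, hσ _ _ _ (hbW k i), hσ _ _ _ (hbW k' j), map_smul, LinearMap.map_smul₂,
        smul_smul, Complex.exp_add, mul_comm]
    have h1 := LinearMap.congr_fun₂ key f f'
    have h2 : σ (k + k') (mu f f') = mu (σ k f) (σ k' f') := h1
    have h3 : mu f f' = g := Subtype.ext hg.symm
    rw [h3] at h2
    rw [h2]
    rfl
  · intro k f g
    -- linearity of the inner product
    have hsymm : ∀ x y : E k, ip y x = star (ip x y) := fun x y => hip.symm k x x.2 y y.2
    let L : E k → (E k →ₗ[ℂ] ℂ) := fun y =>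
      { toFun := fun x => ip x y
        map_add' := fun x x' => hip.add k x x.2 x' x'.2 y y.2
        map_smul' := fun c x => hip.smul k c x x.2 y y.2 }
    have hL : ∀ x y, L y x = ip x y := fun x y => rfl
    have h1 : ∀ i (y : E k), ip (e k i) (σ k y) = Complex.exp (w k i) * ip (e k i) y := by
      intro i y
      have h2 : (L (e k i)).comp (σ k) = Complex.exp (w k i) • L (e k i) := by
        apply (b k).ext
        intro j
        show ip (σ k (b k j)) (e k i) = Complex.exp (w k i) * ip (b k j) (e k i)
        rw [hb, hσe]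
        have h3 : ip (Complex.exp (w k j) • e k j : E k) (e k i) =
            Complex.exp (w k j) * ip (e k j) (e k i) := hip.smul k _ _ (e k j).2 _ (e k i).2
        rw [h3, hon]
        split_ifs with h
        · rw [h]
        · simp
      have h3 := LinearMap.congr_fun h2 y
      have h4 : ip (σ k y) (e k i) = Complex.exp (w k i) * ip y (e k i) := h3
      rw [hsymm (σ k y) (e k i), h4, hsymm y (e k i), star_mul']
      congr 1
      rw [Complex.star_def, ← Complex.exp_conj, Complex.conj_ofReal]
    have h2 : (L g).comp (σ k) = L (σ k g) := by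
      apply (b k).ext
      intro j
      show ip (σ k (b k j)) g = ip (b k j) (σ k g)
      rw [hb, hσe, h1]
      exact hip.smul k _ _ (e k j).2 _ g.2
    exact LinearMap.congr_fun h2 f
  · intro k N φ B _ hB f
    have h1 : φ.toLinearMap.comp (σ k) =
        (Matrix.mulVecLin (NormedSpace.exp B)).comp φ.toLinearMap := by
      apply (b k).ext
      intro j
      show φ (σ k (b k j)) = NormedSpace.exp B *ᵥ φ (b k j)
      rw [hσ _ _ _ (hbW k j), map_smul]
      symm
      apply exf_exp_mulVec
      rw [← hB, hbW, map_smul]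
    exact LinearMap.congr_fun h1 f

end Pool.Agent.Helper9.KP
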