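import Pool.Agent.Helper85.KP.StE

/-!
# Project KP, module ESG: homogeneous measurable representative of the limit
-/

set_option autoImplicit false

namespace Pool.Agent.Helper9.KP

open MeasureTheory Filter Pool.Agent.Helper52.KP Pool.Agent.Helper85.KP
open scoped ContDiff ComplexOrder Topology

private theorem esg_isOpen_U (C : Cone) : IsOpen C.U := by
  have : Continuous fun z : Fin C.m → ℂ => ev C.Δ z := MvPolynomial.continuous_eval C.Δ
  exact isOpen_ne.preimage this

private theorem esg_indicator_measurable {m : ℕ} {U : Set (Fin m → ℂ)} (hU : IsOpen U)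
    {f : (Fin m → ℂ) → ℝ} (hf : ContinuousOn f U) : Measurable (U.indicator f) := by
  classical
  have h := hf.measurable_piecewise (g := fun _ => (0 : ℝ)) continuousOn_const hU.measurableSet
  have e : U.piecewise f (fun _ => (0 : ℝ)) = U.indicator f := Set.piecewise_eq_indicator
  rwa [e] at h

theorem hESG (hEWT : StEWT) (hECS : StECS) (hEPO : StEPO) : StESG := by
  intro C r Λ k N s lam hC hS t ht0 htl g₀ hg₀
  classical
  have hD : ∀ i, 0 < C.n * r * k i := fun i =>
    Nat.mul_pos (Nat.mul_pos hC.hn hS.hr) (hS.kpos i)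
  have hU : IsOpen C.U := esg_isOpen_U C
  have hcs := fun i => hECS C hC (C.n * r * k i) (N i) (hD i) (s i) (lam i) (hS.onb i).span
    (t i) (ht0 i)
  obtain ⟨-, hae, -, -⟩ := hEWT C r Λ k N s lam hC hS t ht0 htl
  set f : ℕ → (Fin C.m → ℂ) → ℝ := fun i => psi1 C (C.n * r * k i) (s i) (lam i) (t i) with hf
  have hmeas : ∀ i, Measurable (C.U.indicator (f i)) := fun i =>
    esg_indicator_measurable hU (hcs i).2.2.1.continuousOn
  have humeas : Measurable (C.U.indicator C.u) :=
    esg_indicator_measurable hU hC.usm.continuousOn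
  set B : ℝ := (Λ : ℝ) / (2 * C.n * r) with hB
  have hB0 : 0 ≤ B := by positivity
  have hu0 : ∀ z ∈ C.U, 0 ≤ C.u z := by
    intro z hz
    obtain ⟨a, b, ha, hab⟩ := hC.ubd
    have h1 := (hab z hz).1
    have h2 := hC.Xpos z hz
    have : 0 ≤ a * C.sz z := by positivity
    linarith
  have hhom : ∀ i, ∀ z ∈ C.U, ∀ c : ℂ, c ≠ 0 → f i (scl C.w c z) = ‖c‖ * f i z :=
    fun i z hz c hc => ((hcs i).2.2.2.2 z hz).2.2.2.2 c hc |>.2
  set G : (Fin C.m → ℂ) → ℝ := fun z => limUnder atTop fun i => C.U.indicator (f i) z with hG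
  have hGm : Measurable G :=
    (StronglyMeasurable.limUnder (l := atTop) fun i => (hmeas i).stronglyMeasurable).measurable
  set E : Set (Fin C.m → ℂ) :=
    {z | ∃ l, Tendsto (fun i => C.U.indicator (f i) z) atTop (𝓝 l)} with hE
  have hEm : MeasurableSet E := MeasureTheory.measurableSet_exists_tendsto hmeas
  set A : Set (Fin C.m → ℂ) :=
    ((E ∩ C.U) ∩ {z | 0 ≤ G z}) ∩ {z | G z ≤ B * C.U.indicator C.u z} with hA
  have hAm : MeasurableSet A :=
    ((hEm.inter hU.measurableSet).inter (measurableSet_le measurable_const hGm)).inter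
      (measurableSet_le hGm (humeas.const_mul B))
  -- points of `A`
  have hlim : ∀ z ∈ E, Tendsto (fun i => C.U.indicator (f i) z) atTop (𝓝 (G z)) :=
    fun z hz => tendsto_nhds_limUnder hz
  have hAkey : ∀ z ∈ A, ∀ c : ℂ, c ≠ 0 → scl C.w c z ∈ A ∧ G (scl C.w c z) = ‖c‖ * G z := by
    rintro z ⟨⟨⟨h1, h2⟩, h3⟩, h4⟩ c hc
    have h2' : scl C.w c z ∈ C.U := hC.sclU c hc z h2
    have h5 : Tendsto (fun i => C.U.indicator (f i) (scl C.w c z)) atTop (𝓝 (‖c‖ * G z)) := by
      have h6 := (hlim z h1).const_mul ‖c‖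
      refine h6.congr fun i => ?_
      rw [Set.indicator_of_mem h2, Set.indicator_of_mem h2', hhom i z h2 c hc]
    have h6 : G (scl C.w c z) = ‖c‖ * G z := h5.limUnder_eq
    refine ⟨⟨⟨⟨⟨_, h5⟩, h2'⟩, ?_⟩, ?_⟩, h6⟩
    · show 0 ≤ G (scl C.w c z)
      rw [h6]
      exact mul_nonneg (norm_nonneg c) h3
    · show G (scl C.w c z) ≤ B * C.U.indicator C.u (scl C.w c z)
      rw [h6, Set.indicator_of_mem h2', hC.uhom z h2 c hc]
      have h7 : G z ≤ B * C.u z := by
        have := h4
        rwa [Set.mem_ofPred_eq, Set.indicator_of_mem h2] at this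
      have := mul_le_mul_of_nonneg_left h7 (norm_nonneg c)
      linarith
  have hback : ∀ (z : Fin C.m → ℂ) (c : ℂ), c ≠ 0 → scl C.w c⁻¹ (scl C.w c z) = z := by
    intro z c hc
    funext j
    show c⁻¹ ^ C.w j * (c ^ C.w j * z j) = z j
    rw [← mul_assoc, ← mul_pow, inv_mul_cancel₀ hc, one_pow, one_mul]
  refine ⟨A.indicator G, B, hGm.indicator hAm, ?_, ?_, ?_⟩
  · intro z hz
    by_cases h : z ∈ A
    · rw [Set.indicator_of_mem h]
      refine ⟨h.1.2, ?_⟩
      have := h.2
      rwa [Set.mem_ofPred_eq, Set.indicator_of_mem hz] at this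
    · rw [Set.indicator_of_notMem h]
      exact ⟨le_rfl, mul_nonneg hB0 (hu0 z hz)⟩
  · intro z hz c hc
    by_cases h : z ∈ A
    · rw [Set.indicator_of_mem h, Set.indicator_of_mem (hAkey z h c hc).1, (hAkey z h c hc).2]
    · have h' : scl C.w c z ∉ A := by
        intro h1
        apply h
        have := (hAkey _ h1 c⁻¹ (inv_ne_zero hc)).1
        rwa [hback z c hc] at this
      rw [Set.indicator_of_notMem h, Set.indicator_of_notMem h', mul_zero]
  · filter_upwards [hg₀, hae, ae_restrict_mem hU.measurableSet] with z h1 h2 hz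
    have h1' : Tendsto (fun i => C.U.indicator (f i) z) atTop (𝓝 (g₀ z)) := by
      refine h1.congr fun i => ?_
      rw [Set.indicator_of_mem hz]
    have hGz : G z = g₀ z := h1'.limUnder_eq
    have hb : ∀ i, 0 ≤ f i z ∧
        f i z ≤ B * psi C (C.n * r * k i) (s i) (lam i) (t i) z := by
      intro i
      have hL : (0 : ℝ) < (Λ : ℝ) * k i := by
        have h3 : (0 : ℝ) < Λ := by exact_mod_cast hS.hΛ
        have h4 : (0 : ℝ) < k i := by exact_mod_cast hS.kpos i
        positivity
      have h3 := hEPO C hC (C.n * r * k i) (N i) (hD i) (s i) (lam i) (hS.onb i).span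
        ((Λ : ℝ) * k i) hL (fun j => by exact_mod_cast hS.bd i j) z hz (t i) (ht0 i)
      have hF0 := h3.2.2.2.1
      have hF1 := h3.2.2.2.2.1
      have hp := ((hcs i).2.2.2.2 z hz).1
      have hn : (0 : ℝ) < C.n := by exact_mod_cast hC.hn
      have hr : (0 : ℝ) < r := by exact_mod_cast hS.hr
      have hk : (0 : ℝ) < k i := by exact_mod_cast hS.kpos i
      have hDc : ((C.n * r * k i : ℕ) : ℝ) = (C.n : ℝ) * r * k i := by push_cast; ring
      show 0 ≤ psi C (C.n * r * k i) (s i) (lam i) (t i) z *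
          (F1 (s i) (lam i) (t i) z / (2 * ((C.n * r * k i : ℕ) : ℝ))) ∧
        psi C (C.n * r * k i) (s i) (lam i) (t i) z *
          (F1 (s i) (lam i) (t i) z / (2 * ((C.n * r * k i : ℕ) : ℝ))) ≤
          B * psi C (C.n * r * k i) (s i) (lam i) (t i) z
      rw [hDc]
      constructor
      · positivity
      · rw [mul_comm]
        apply mul_le_mul_of_nonneg_right _ hp.le
        rw [hB, div_le_div_iff₀ (by positivity) (by positivity)]
        nlinarith [mul_pos hn hr, mul_pos (mul_pos hn hr) hk]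
    have h3 : 0 ≤ g₀ z := ge_of_tendsto' h1 fun i => (hb i).1
    have h4 : g₀ z ≤ B * C.u z :=
      le_of_tendsto_of_tendsto' h1 (h2.2.const_mul B) fun i => (hb i).2
    have hzA : z ∈ A := by
      refine ⟨⟨⟨⟨_, h1'⟩, hz⟩, ?_⟩, ?_⟩
      · show 0 ≤ G z
        rw [hGz]
        exact h3
      · show G z ≤ B * C.U.indicator C.u z
        rw [hGz, Set.indicator_of_mem hz]
        exact h4
    rw [Set.indicator_of_mem hzA, hGz]
    exact h1

end Pool.Agent.Helper9.KP
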