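import Pool.Agent.Helper93.KP.St
import Pool.Agent.Helper15.AB.M_PQ
import Pool.Agent.Helper15.AB.M_FJ

/-!
# Project KP, module INS: incomplete Kloosterman sums over a progression
-/

set_option autoImplicit false

noncomputable section

namespace Pool.Agent.Helper9.KP

open Finset Filter Topology Pool.Agent.Helper93.KP
open Pool.Agent.Helper15.AB (ee Kl StDB StMT)
open Pool.Agent.Helper9.TW (iv)
open Pool.Agent.Helper15.AB.hPQ (ee_add ee_int ee_norm ee_congr)
open Pool.Agent.Helper15.AB.hFJ (gg_bound harm_le orth range_split)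
open Pool.Agent.Helper15.AB.GA (gg gg_le)

private theorem completion (r : ℕ) (k : ℤ) (P : Finset ℕ) (hr : 1 ≤ r) :
    (r : ℂ) * ∑ m ∈ P.filter (fun m => Nat.Coprime m r),
      ee (((k * (iv r m : ℤ) : ℤ) : ℝ) / r) =
    ∑ j ∈ range r, (∑ m ∈ P, ee ((((j : ℤ) * (-(m : ℤ)) : ℤ) : ℝ) / r)) * Kl r j k := by
  haveI : NeZero r := ⟨by omega⟩
  have h1 : ∀ m ∈ P, (if Nat.Coprime m r then
      (r : ℂ) * ee (((k * (iv r m : ℤ) : ℤ) : ℝ) / r) else 0) =
      ∑ u ∈ (range r).filter (fun u => Nat.Coprime u r),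
        (∑ j ∈ range r, ee ((((j : ℤ) * ((u : ℤ) - m) : ℤ) : ℝ) / r)) *
          ee (((k * (iv r u : ℤ) : ℤ) : ℝ) / r) := by
    intro m _
    have hmr : m % r < r := Nat.mod_lt _ hr
    have key : ∀ u ∈ (range r).filter (fun u => Nat.Coprime u r),
        (∑ j ∈ range r, ee ((((j : ℤ) * ((u : ℤ) - m) : ℤ) : ℝ) / r)) *
          ee (((k * (iv r u : ℤ) : ℤ) : ℝ) / r) =
        if u = m % r then (r : ℂ) * ee (((k * (iv r m : ℤ) : ℤ) : ℝ) / r) else 0 := by
      intro u hu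
      rw [mem_filter, mem_range] at hu
      rw [orth r hr]
      have hiff : ((r : ℤ) ∣ (u : ℤ) - m) ↔ u = m % r := by
        constructor
        · intro h
          have h2 : m ≡ u [MOD r] := (Nat.modEq_iff_dvd).2 h
          have h3 : m % r = u % r := h2
          rw [Nat.mod_eq_of_lt hu.1] at h3
          exact h3.symm
        · rintro rfl
          exact (Nat.modEq_iff_dvd).1 (Nat.mod_modEq m r).symm
      by_cases h : u = m % r
      · rw [if_pos (hiff.2 h), if_pos h]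
        have h2 : iv r u = iv r m := by
          unfold iv
          rw [h, ZMod.natCast_mod]
        rw [h2]
      · rw [if_neg (fun h' => h (hiff.1 h')), if_neg h, zero_mul]
    rw [sum_congr rfl key, sum_ite_eq' ]
    by_cases hc : Nat.Coprime m r
    · have : m % r ∈ (range r).filter (fun u => Nat.Coprime u r) := by
        rw [mem_filter, mem_range]
        refine ⟨hmr, ?_⟩
        unfold Nat.Coprime at hc ⊢
        rw [← Nat.gcd_rec, Nat.gcd_comm]
        exact hc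
      rw [if_pos hc, if_pos this]
    · have : ¬ m % r ∈ (range r).filter (fun u => Nat.Coprime u r) := by
        rw [mem_filter, mem_range]
        rintro ⟨_, h⟩
        apply hc
        unfold Nat.Coprime at h ⊢
        rw [← Nat.gcd_rec, Nat.gcd_comm] at h
        exact h
      rw [if_neg hc, if_neg this]
  rw [mul_sum, sum_filter, sum_congr rfl h1, sum_comm]
  simp only [Kl, sum_mul, mul_sum]
  rw [sum_comm]
  have h2 : ∀ m ∈ P, ∀ u ∈ (range r).filter (fun u => Nat.Coprime u r), ∀ j ∈ range r,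
      ee ((((j : ℤ) * ((u : ℤ) - m) : ℤ) : ℝ) / r) * ee (((k * (iv r u : ℤ) : ℤ) : ℝ) / r) =
      ee ((((j : ℤ) * (-(m : ℤ)) : ℤ) : ℝ) / r) *
        ee (((j : ℤ) * u + k * (((u : ZMod r)⁻¹).val : ℤ) : ℤ) / (r : ℝ)) := by
    intro m _ u _ j _
    rw [← ee_add, ← ee_add]
    congr 1
    unfold iv
    push_cast
    ring
  rw [sum_congr rfl fun m hm => sum_congr rfl fun u hu => sum_congr rfl fun j hj => h2 m hm u hu j hj]
  rw [sum_congr rfl fun m _ => sum_comm, sum_comm]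
  exact sum_congr rfl fun j _ => sum_comm

private lemma permR (p q : ℕ) (hq : 1 ≤ q) (h : Nat.Coprime p q) (F : ℕ → ℝ) :
    ∑ k ∈ range q, F (k * p % q) = ∑ k ∈ range q, F k := by
  have hmaps : ∀ k ∈ range q, k * p % q ∈ range q := fun k _ =>
    mem_range.2 (Nat.mod_lt _ (by omega))
  have hinj : Set.InjOn (fun k => k * p % q) (range q : Set ℕ) := by
    intro a ha b hb hab
    have ha' := mem_range.1 (mem_coe.1 ha)
    have hb' := mem_range.1 (mem_coe.1 hb)
    have h1 : a * p ≡ b * p [MOD q] := hab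
    have h2 : a ≡ b [MOD q] := Nat.ModEq.cancel_right_of_coprime (by
      rw [Nat.gcd_comm]; exact h) h1
    exact Nat.ModEq.eq_of_lt_of_lt h2 ha' hb'
  have hsurj : Set.SurjOn (fun k => k * p % q) (range q : Set ℕ) (range q : Set ℕ) :=
    Finset.surjOn_of_injOn_of_card_le _ hmaps hinj le_rfl
  exact Finset.sum_nbij (fun k => k * p % q) hmaps hinj hsurj (fun _ _ => rfl)

/-- the set of the progression -/
private lemma prog (e μ M₁ M₂ : ℕ) (he : 1 ≤ e) (hμ : μ < e) (hM : M₁ ≤ M₂) :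
    ∃ T L : ℕ, L ≤ M₂ - M₁ + 1 ∧
      (Ioc M₁ M₂).filter (fun m => m % e = μ) = (range L).image (fun h => μ + e * (T + h)) := by
  refine ⟨(M₁ + e - μ) / e, (M₂ + e - μ) / e - (M₁ + e - μ) / e, ?_, ?_⟩
  · have h1 : (M₂ + e - μ) / e ≤ (M₁ + e - μ) / e + (M₂ - M₁ + 1) := by
      have h2 : M₂ + e - μ ≤ (M₁ + e - μ) + e * (M₂ - M₁) := by
        have : M₂ - M₁ ≤ e * (M₂ - M₁) := Nat.le_mul_of_pos_left _ he
        omega
      calc (M₂ + e - μ) / e ≤ ((M₁ + e - μ) + e * (M₂ - M₁)) / e := Nat.div_le_div_right h2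
        _ = (M₁ + e - μ) / e + (M₂ - M₁) := Nat.add_mul_div_left _ _ he
        _ ≤ _ := by omega
    omega
  · ext m
    rw [mem_filter, mem_Ioc, mem_image]
    have hlt : ∀ M t : ℕ, (M < μ + e * t ↔ (M + e - μ) / e ≤ t) := by
      intro M t
      constructor
      · intro h
        have : (M + e - μ) / e < t + 1 := by
          rw [Nat.div_lt_iff_lt_mul he]
          have : (t + 1) * e = e * t + e := by ring
          omega
        omega
      · intro h
        have h2 : (M + e - μ) / e < t + 1 := by omega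
        rw [Nat.div_lt_iff_lt_mul he] at h2
        have : (t + 1) * e = e * t + e := by ring
        omega
    constructor
    · rintro ⟨⟨h1, h2⟩, h3⟩
      have hm : m = μ + e * (m / e) := by
        have := Nat.div_add_mod m e
        omega
      have h4 : (M₁ + e - μ) / e ≤ m / e := (hlt _ _).1 (by omega)
      have h5 : ¬ (M₂ + e - μ) / e ≤ m / e := fun h => by
        have := (hlt _ _).2 h
        omega
      refine ⟨m / e - (M₁ + e - μ) / e, mem_range.2 (by omega), ?_⟩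
      have : (M₁ + e - μ) / e + (m / e - (M₁ + e - μ) / e) = m / e := by omega
      rw [this]
      exact hm.symm
    · rintro ⟨h, hh, rfl⟩
      rw [mem_range] at hh
      have h1 : M₁ < μ + e * ((M₁ + e - μ) / e + h) := (hlt _ _).2 (by omega)
      have h2 : ¬ M₂ < μ + e * ((M₁ + e - μ) / e + h) := fun hc => by
        have := (hlt _ _).1 hc
        omega
      refine ⟨⟨h1, by omega⟩, ?_⟩
      rw [Nat.add_mul_mod_self_left, Nat.mod_eq_of_lt hμ]

private lemma G_sum (r e μ T L : ℕ) (he : 1 ≤ e) (hr : 1 ≤ r) (h : Nat.Coprime e r) :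
    ∑ j ∈ range r, ‖∑ m ∈ (range L).image (fun h => μ + e * (T + h)),
      ee ((((j : ℤ) * (-(m : ℤ)) : ℤ) : ℝ) / r)‖ ≤ L + r * (1 + Real.log r) := by
  have hr0 : (0 : ℝ) < r := by exact_mod_cast hr
  have hG : ∀ j : ℕ, ‖∑ m ∈ (range L).image (fun h => μ + e * (T + h)),
      ee ((((j : ℤ) * (-(m : ℤ)) : ℤ) : ℝ) / r)‖ = ‖gg L (-((j * e : ℕ) : ℝ) / r)‖ := by
    intro j
    have h2 : ∑ m ∈ (range L).image (fun h => μ + e * (T + h)),
        ee ((((j : ℤ) * (-(m : ℤ)) : ℤ) : ℝ) / r) =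
        ee (-(j : ℝ) / r * (μ + e * T)) * gg L (-((j * e : ℕ) : ℝ) / r) := by
      unfold gg
      rw [sum_image (by
        intro x _ y _ hxy
        have h1 : e * (T + x) = e * (T + y) := by
          have : μ + e * (T + x) = μ + e * (T + y) := hxy
          omega
        have h3 := Nat.eq_of_mul_eq_mul_left he h1
        omega), mul_sum]
      refine sum_congr rfl fun h _ => ?_
      rw [← ee_add]
      congr 1
      push_cast
      ring
    rw [h2, norm_mul, ee_norm, one_mul]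
  simp only [hG]
  rw [range_split r hr]
  have h0 : ‖gg L (-((0 * e : ℕ) : ℝ) / r)‖ ≤ L := gg_le _ _
  set F : ℕ → ℝ := fun k => (r : ℝ) / 2 * (1 / (k : ℝ) + 1 / ((r : ℝ) - k)) with hF
  have h1 : ∀ j ∈ Icc 1 (r - 1), ‖gg L (-((j * e : ℕ) : ℝ) / r)‖ ≤ F (j * e % r) := by
    intro j hj
    rw [mem_Icc] at hj
    have hm : (j * e) % r ≠ 0 := by
      intro h0
      have h2 : r ∣ j * e := Nat.dvd_of_mod_eq_zero h0
      have h3 : r ∣ j := h.symm.dvd_of_dvd_mul_right h2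
      have := Nat.le_of_dvd (by omega) h3
      omega
    exact gg_bound L r (j * e) hr hm
  have h2 : ∑ j ∈ Icc 1 (r - 1), F (j * e % r) = ∑ j ∈ Icc 1 (r - 1), F j := by
    have h3 := permR e r hr h F
    rw [range_split r hr, range_split r hr (fun k => F k)] at h3
    have h4 : 0 * e % r = 0 := by simp
    rw [h4] at h3
    exact add_left_cancel h3
  have h3 : ∑ j ∈ Icc 1 (r - 1), (1 : ℝ) / ((r : ℝ) - j) = ∑ j ∈ Icc 1 (r - 1), (1 : ℝ) / j := by
    refine sum_nbij' (fun k => r - k) (fun k => r - k) ?_ ?_ ?_ ?_ ?_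
    · intro k hk; rw [mem_Icc] at hk ⊢; omega
    · intro k hk; rw [mem_Icc] at hk ⊢; omega
    · intro k hk; rw [mem_Icc] at hk; omega
    · intro k hk; rw [mem_Icc] at hk; omega
    · intro k hk
      rw [mem_Icc] at hk
      rw [Nat.cast_sub (by omega)]
  have h4 : ∑ j ∈ Icc 1 (r - 1), (1 : ℝ) / j ≤ 1 + Real.log r := by
    refine le_trans ?_ (harm_le r)
    refine sum_le_sum_of_subset_of_nonneg ?_ (fun _ _ _ => by positivity)
    exact Icc_subset_Icc le_rfl (by omega)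
  have h5 : ∑ j ∈ Icc 1 (r - 1), ‖gg L (-((j * e : ℕ) : ℝ) / r)‖ ≤ r * (1 + Real.log r) := by
    refine (sum_le_sum h1).trans ?_
    rw [h2]
    simp only [hF]
    rw [← mul_sum, sum_add_distrib, h3]
    have : (r : ℝ) / 2 * ∑ j ∈ Icc 1 (r - 1), (1 : ℝ) / j ≤ r / 2 * (1 + Real.log r) :=
      mul_le_mul_of_nonneg_left h4 (by positivity)
    linarith
  exact add_le_add h0 h5

private lemma Kl_le (hW : StWEI) (r : ℕ) (hr : Squarefree r) (α β : ℤ) :
    ‖Kl r α β‖ ≤ (r.divisors.card : ℝ) * √(Int.gcd β r : ℝ) * √(r : ℝ) := by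
  refine (hW r α β hr).trans ?_
  have hr1 : r ≠ 0 := hr.ne_zero
  have h4 : Int.gcd (Int.gcd α β) r ∣ Int.gcd β r := by
    apply Int.dvd_gcd
    · exact (Int.gcd_dvd_left _ _).trans (Int.gcd_dvd_right _ _)
    · exact Int.gcd_dvd_right _ _
  have h5 : 0 < Int.gcd β r := Int.gcd_pos_of_ne_zero_right _ (by omega)
  have h6 : (Int.gcd (Int.gcd α β) r : ℝ) ≤ (Int.gcd β r : ℝ) := by
    exact_mod_cast Nat.le_of_dvd h5 h4
  gcongr

theorem hINS (hW : StWEI) (hDB : StDB) : StINS := by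
  intro ε hε
  obtain ⟨C, hC1, hC⟩ := hDB (ε / 2) (by linarith)
  have hC0 : 0 < C := by linarith
  refine ⟨C * (2 + 2 / ε), by positivity, ?_⟩
  intro r e μ κ M₁ M₂ hsq he hcop hM
  have hr1 : 1 ≤ r := Nat.one_le_iff_ne_zero.2 hsq.ne_zero
  have hr0 : (0 : ℝ) < r := by exact_mod_cast hr1
  have hr1' : (1 : ℝ) ≤ r := by exact_mod_cast hr1
  have hMR : (0 : ℝ) ≤ (M₂ : ℝ) - M₁ := by
    have : (M₁ : ℝ) ≤ M₂ := by exact_mod_cast hM
    linarith
  have hrhs : 0 ≤ C * (2 + 2 / ε) * (r : ℝ) ^ ε * √(Int.gcd κ r : ℝ) *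
      (√(r : ℝ) + ((M₂ : ℝ) - M₁) / √(r : ℝ)) := by positivity
  rcases Nat.lt_or_ge μ e with hμ | hμ
  swap
  · have : (Ioc M₁ M₂).filter (fun m => m % e = μ ∧ Nat.Coprime m r) = ∅ := by
      rw [filter_eq_empty_iff]
      rintro m _ ⟨h1, _⟩
      have := Nat.mod_lt m he
      omega
    rw [this, sum_empty, norm_zero]
    exact hrhs
  obtain ⟨T, L, hL, hP⟩ := prog e μ M₁ M₂ he hμ hM
  rw [← filter_filter, hP]
  have hcomp := completion r κ ((range L).image (fun h => μ + e * (T + h))) hr1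
  set S := ∑ m ∈ ((range L).image (fun h => μ + e * (T + h))).filter (fun m => Nat.Coprime m r),
      ee (((κ * (iv r m : ℤ) : ℤ) : ℝ) / r) with hS
  set g := √(Int.gcd κ r : ℝ) with hg
  have hg0 : 0 ≤ g := Real.sqrt_nonneg _
  set τ := (r.divisors.card : ℝ) with hτ
  have hτ0 : 0 ≤ τ := Nat.cast_nonneg _
  have hlog : 0 ≤ Real.log r := Real.log_nonneg hr1'
  have h1 : (r : ℝ) * ‖S‖ ≤ (τ * g * √(r : ℝ)) * (L + r * (1 + Real.log r)) := by
    have e1 : (r : ℝ) * ‖S‖ = ‖(r : ℂ) * S‖ := by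
      rw [norm_mul, Complex.norm_natCast]
    rw [e1, hcomp]
    refine (norm_sum_le _ _).trans ?_
    calc ∑ j ∈ range r, ‖(∑ m ∈ (range L).image (fun h => μ + e * (T + h)),
          ee ((((j : ℤ) * (-(m : ℤ)) : ℤ) : ℝ) / r)) * Kl r j κ‖
        ≤ ∑ j ∈ range r, ‖∑ m ∈ (range L).image (fun h => μ + e * (T + h)),
          ee ((((j : ℤ) * (-(m : ℤ)) : ℤ) : ℝ) / r)‖ * (τ * g * √(r : ℝ)) := by
          refine sum_le_sum fun j _ => ?_
          rw [norm_mul]
          exact mul_le_mul_of_nonneg_left (Kl_le hW r hsq j κ) (norm_nonneg _)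
      _ = (τ * g * √(r : ℝ)) * ∑ j ∈ range r, ‖∑ m ∈ (range L).image (fun h => μ + e * (T + h)),
          ee ((((j : ℤ) * (-(m : ℤ)) : ℤ) : ℝ) / r)‖ := by
          rw [← sum_mul, mul_comm]
      _ ≤ _ := mul_le_mul_of_nonneg_left (G_sum r e μ T L he hr1 hcop) (by positivity)
  have hs0 : 0 < √(r : ℝ) := Real.sqrt_pos.2 hr0
  have hss : √(r : ℝ) * √(r : ℝ) = r := Real.mul_self_sqrt hr0.le
  have hs1 : 1 ≤ √(r : ℝ) := Real.one_le_sqrt.2 hr1'
  have hLR : (L : ℝ) ≤ ((M₂ : ℝ) - M₁) + 1 := by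
    have h2 : (L : ℝ) ≤ ((M₂ - M₁ + 1 : ℕ) : ℝ) := by exact_mod_cast hL
    rw [Nat.cast_add, Nat.cast_sub hM, Nat.cast_one] at h2
    exact h2
  set D := (M₂ : ℝ) - M₁ with hD
  have h2 : ‖S‖ ≤ τ * g * ((2 + Real.log r) * (√(r : ℝ) + D / √(r : ℝ))) := by
    have h3 : (r : ℝ) * ‖S‖ ≤ r * (τ * g * ((2 + Real.log r) * (√(r : ℝ) + D / √(r : ℝ)))) := by
      refine h1.trans ?_
      have e2 : (r : ℝ) * (τ * g * ((2 + Real.log r) * (√(r : ℝ) + D / √(r : ℝ)))) =
          τ * g * √(r : ℝ) * ((2 + Real.log r) * (r + D)) := by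
        have e3 : (r : ℝ) * (√(r : ℝ) + D / √(r : ℝ)) = √(r : ℝ) * (r + D) := by
          rw [mul_add]
          have : (r : ℝ) * (D / √(r : ℝ)) = √(r : ℝ) * D := by
            rw [mul_div_assoc', div_eq_iff hs0.ne']
            rw [← hss]
            have : √(√(r : ℝ) * √(r : ℝ)) = √(r : ℝ) := by rw [hss]
            rw [this]
            ring
          rw [this]
          ring
        calc (r : ℝ) * (τ * g * ((2 + Real.log r) * (√(r : ℝ) + D / √(r : ℝ))))
            = τ * g * (2 + Real.log r) * (r * (√(r : ℝ) + D / √(r : ℝ))) := by ring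
          _ = _ := by rw [e3]; ring
      rw [e2]
      refine mul_le_mul_of_nonneg_left ?_ (by positivity)
      nlinarith
    exact le_of_mul_le_mul_left h3 hr0
  have h3 : 2 + Real.log r ≤ (2 + 2 / ε) * (r : ℝ) ^ (ε / 2) := by
    have h4 := Real.log_le_rpow_div hr0.le (show 0 < ε / 2 by linarith)
    have h5 : (1 : ℝ) ≤ (r : ℝ) ^ (ε / 2) := Real.one_le_rpow hr1' (by linarith)
    have h6 : (r : ℝ) ^ (ε / 2) / (ε / 2) = 2 / ε * (r : ℝ) ^ (ε / 2) := by
      field_simp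
    rw [h6] at h4
    nlinarith
  have h7 : (r : ℝ) ^ (ε / 2) * (r : ℝ) ^ (ε / 2) = (r : ℝ) ^ ε := by
    rw [← Real.rpow_add hr0]
    congr 1
    ring
  have hX : 0 ≤ √(r : ℝ) + D / √(r : ℝ) := by positivity
  calc ‖S‖ ≤ τ * g * ((2 + Real.log r) * (√(r : ℝ) + D / √(r : ℝ))) := h2
    _ ≤ (C * (r : ℝ) ^ (ε / 2)) * g *
        (((2 + 2 / ε) * (r : ℝ) ^ (ε / 2)) * (√(r : ℝ) + D / √(r : ℝ))) := by
        have := hC r hr1
        gcongr
    _ = C * (2 + 2 / ε) * ((r : ℝ) ^ (ε / 2) * (r : ℝ) ^ (ε / 2)) * g *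
        (√(r : ℝ) + D / √(r : ℝ)) := by ring
    _ = _ := by rw [h7]

end Pool.Agent.Helper9.KP
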